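import Pool.Agent.Helper33.HU.Goals

/-!
Project HU (MP_bb32d1_al, MP_2a8fe7_al), packet CAY: Cayley's formula, as an upper bound.
-/

set_option autoImplicit false

namespace Pool.Agent.Helper32.HU

open Finset Pool.Agent.Helper33.HU

open Classical in
/-- acyclic functions on `S` with values in `S ∪ R`, extended by the identity. -/
noncomputable def AA {α : Type} [Fintype α] (S R : Finset α) : Finset (α → α) :=
  univ.filter fun f => (∀ v, v ∉ S → f v = v) ∧ (∀ v, v ∈ S → f v ∈ S ∨ f v ∈ R) ∧
    ∃ d : α → ℕ, ∀ v, v ∈ S → f v ∈ S → d (f v) < d v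

theorem mem_AA {α : Type} [Fintype α] (S R : Finset α) (f : α → α) :
    f ∈ AA S R ↔ (∀ v, v ∉ S → f v = v) ∧ (∀ v, v ∈ S → f v ∈ S ∨ f v ∈ R) ∧
    ∃ d : α → ℕ, ∀ v, v ∈ S → f v ∈ S → d (f v) < d v := by
  classical
  unfold AA
  rw [Finset.mem_filter]
  exact ⟨fun h => h.2, fun h => ⟨Finset.mem_univ _, h⟩⟩

/-- the number of forests. -/
def tt : ℕ → ℕ → ℕ
  | 0, _ => 1
  | n + 1, r => r * (n + 1 + r) ^ n

theorem AA_empty {α : Type} [Fintype α] (R : Finset α) : (AA (∅ : Finset α) R).card ≤ 1 := by
  classical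
  refine Finset.card_le_one.2 ?_
  intro f hf g hg
  rw [mem_AA] at hf hg
  funext v
  rw [hf.1 v (Finset.notMem_empty v), hg.1 v (Finset.notMem_empty v)]

theorem AA_no_root {α : Type} [Fintype α] (S : Finset α) (hS : S.Nonempty) :
    (AA S (∅ : Finset α)).card = 0 := by
  classical
  rw [Finset.card_eq_zero, Finset.eq_empty_iff_forall_notMem]
  intro f hf
  rw [mem_AA] at hf
  obtain ⟨-, h2, d, hd⟩ := hf
  obtain ⟨v, hv, hmin⟩ := Finset.exists_min_image S d hS
  rcases h2 v hv with h | h
  · exact absurd (hd v hv h) (not_lt.2 (hmin _ h))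
  · exact absurd h (Finset.notMem_empty _)

open Classical in
theorem fiber {α : Type} [Fintype α] (S R C : Finset α) (hC : C ⊆ S) :
    ((AA S R).filter fun f => (S.filter fun v => f v ∈ R) = C).card ≤
      R.card ^ C.card * (AA (S \ C) C).card := by
  have hcard : ((Fintype.piFinset fun _ : {x // x ∈ C} => R) ×ˢ AA (S \ C) C).card =
      R.card ^ C.card * (AA (S \ C) C).card := by
    rw [Finset.card_product, Fintype.card_piFinset, Finset.prod_const, Finset.card_univ,
      Fintype.card_coe]
  rw [← hcard]
  refine Finset.card_le_card_of_injOn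
    (fun f => (fun v => f v.1, fun v => if v ∈ S \ C then f v else v)) ?_ ?_
  · intro f hf
    rw [Finset.mem_coe, Finset.mem_filter, mem_AA] at hf
    obtain ⟨⟨h1, h2, d, hd⟩, h3⟩ := hf
    rw [Finset.mem_coe, Finset.mem_product]
    constructor
    · rw [Fintype.mem_piFinset]
      intro v
      have hv : (v : α) ∈ S.filter fun v => f v ∈ R := h3.symm ▸ v.2
      exact (Finset.mem_filter.1 hv).2
    · rw [mem_AA]
      refine ⟨fun v hv => if_neg hv, fun v hv => ?_, d, fun v hv hfv => ?_⟩
      · show (if v ∈ S \ C then f v else v) ∈ S \ C ∨ (if v ∈ S \ C then f v else v) ∈ C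
        rw [if_pos hv]
        rw [Finset.mem_sdiff] at hv
        have h4 : f v ∉ R := by
          intro h
          apply hv.2
          rw [← h3, Finset.mem_filter]
          exact ⟨hv.1, h⟩
        have h5 : f v ∈ S := (h2 v hv.1).resolve_right h4
        by_cases h6 : f v ∈ C
        · exact Or.inr h6
        · exact Or.inl (Finset.mem_sdiff.2 ⟨h5, h6⟩)
      · change (if v ∈ S \ C then f v else v) ∈ S \ C at hfv
        show d (if v ∈ S \ C then f v else v) < d v
        rw [if_pos hv] at hfv ⊢
        exact hd v (Finset.mem_sdiff.1 hv).1 (Finset.mem_sdiff.1 hfv).1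
  · intro f hf g hg hfg
    rw [Finset.mem_coe, Finset.mem_filter, mem_AA] at hf hg
    rw [Prod.mk.injEq] at hfg
    funext v
    by_cases hvS : v ∈ S
    · by_cases hvC : v ∈ C
      · exact congrFun hfg.1 ⟨v, hvC⟩
      · have h := congrFun hfg.2 v
        have hv : v ∈ S \ C := Finset.mem_sdiff.2 ⟨hvS, hvC⟩
        simp only [hv, if_true] at h
        exact h
    · rw [hf.1.1 v hvS, hg.1.1 v hvS]

theorem arith (m r : ℕ) :
    ∑ k ∈ range (m + 1 + 1), (m + 1).choose k • (r ^ k * tt (m + 1 - k) k) =
      r * (m + 1 + r) ^ m := by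
  rw [Finset.sum_range_succ']
  have h0 : (m + 1).choose 0 • (r ^ 0 * tt (m + 1 - 0) 0) = 0 := by
    show (m + 1).choose 0 • (r ^ 0 * (0 * (m + 1 + 0) ^ m)) = 0
    rw [zero_mul, mul_zero, smul_zero]
  rw [h0, add_zero, add_comm (m + 1) r, add_pow, Finset.mul_sum]
  refine Finset.sum_congr rfl fun j hj => ?_
  have hj' : j ≤ m := Nat.lt_succ_iff.1 (Finset.mem_range.1 hj)
  rw [smul_eq_mul]
  have h1 : m + 1 - (j + 1) = m - j := by omega
  rw [h1]
  rcases Nat.lt_or_ge j m with h | h
  · obtain ⟨i, hi⟩ : ∃ i, m - j = i + 1 := ⟨m - j - 1, by omega⟩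
    rw [hi]
    have h2 : tt (i + 1) (j + 1) = (j + 1) * (m + 1) ^ i := by
      show (j + 1) * (i + 1 + (j + 1)) ^ i = (j + 1) * (m + 1) ^ i
      congr 2
      omega
    rw [h2]
    have h3 := Nat.add_one_mul_choose_eq m j
    change (m + 1) * m.choose j = (m + 1).choose (j + 1) * (j + 1) at h3
    calc (m + 1).choose (j + 1) * (r ^ (j + 1) * ((j + 1) * (m + 1) ^ i))
        = ((m + 1).choose (j + 1) * (j + 1)) * (r ^ (j + 1) * (m + 1) ^ i) := by ring
      _ = ((m + 1) * m.choose j) * (r ^ (j + 1) * (m + 1) ^ i) := by rw [h3]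
      _ = r * (r ^ j * (m + 1) ^ (i + 1) * (m.choose j)) := by ring
  · have h2 : j = m := le_antisymm hj' h
    subst h2
    rw [Nat.sub_self, Nat.choose_self, Nat.choose_self]
    show 1 * (r ^ (j + 1) * 1) = _
    push_cast
    ring

theorem main {α : Type} [Fintype α] : ∀ (n : ℕ) (S R : Finset α), S.card = n →
    (AA S R).card ≤ tt n R.card := by
  classical
  intro n
  induction n using Nat.strong_induction_on with
  | _ n ih =>
    intro S R hS
    rcases n with _ | m
    · rw [Finset.card_eq_zero] at hS
      subst hS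
      exact AA_empty R
    · have hne : S.Nonempty := Finset.card_pos.1 (by omega)
      have h1 : (AA S R).card = ∑ C ∈ S.powerset,
          ((AA S R).filter fun f => (S.filter fun v => f v ∈ R) = C).card := by
        refine Finset.card_eq_sum_card_fiberwise ?_
        intro f _
        rw [Finset.mem_coe, Finset.mem_powerset]
        exact Finset.filter_subset _ _
      rw [h1]
      have h2 : ∀ C ∈ S.powerset,
          ((AA S R).filter fun f => (S.filter fun v => f v ∈ R) = C).card ≤
            R.card ^ C.card * tt (m + 1 - C.card) C.card := by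
        intro C hC
        rw [Finset.mem_powerset] at hC
        refine (fiber S R C hC).trans (Nat.mul_le_mul_left _ ?_)
        have h3 : (S \ C).card = m + 1 - C.card := by
          rw [Finset.card_sdiff_of_subset hC, hS]
        rcases Finset.eq_empty_or_nonempty C with h4 | h4
        · subst h4
          rw [Finset.sdiff_empty, AA_no_root S hne]
          exact Nat.zero_le _
        · have h5 : 0 < C.card := Finset.card_pos.2 h4
          exact ih (m + 1 - C.card) (by omega) (S \ C) C h3
      refine (Finset.sum_le_sum h2).trans ?_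
      have h6 := Finset.sum_powerset_apply_card
        (fun k => R.card ^ k * tt (m + 1 - k) k) (x := S)
      rw [hS] at h6
      rw [h6, arith]
      exact le_rfl

theorem gCAY : G_CAY := by
  classical
  intro n
  have hm := main (α := Option (Fin n)) n (univ.erase none) {none} (by
    rw [Finset.card_erase_of_mem (Finset.mem_univ _), Finset.card_univ, Fintype.card_option,
      Fintype.card_fin, Nat.add_sub_cancel])
  rw [Finset.card_singleton] at hm
  have ht : tt n 1 = (n + 1) ^ (n - 1) := by
    rcases n with _ | m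
    · rfl
    · show 1 * (m + 1 + 1) ^ m = (m + 1 + 1) ^ (m + 1 - 1)
      rw [one_mul, Nat.add_sub_cancel]
  rw [ht] at hm
  refine le_trans ?_ hm
  rw [Nat.card_eq_fintype_card, ← Fintype.card_coe (AA (univ.erase none) {none})]
  refine Fintype.card_le_of_injective
    (fun f => (⟨fun o => o.bind f.1, ?_⟩ :
      {F // F ∈ AA (univ.erase (none : Option (Fin n))) {none}})) ?_
  · rw [mem_AA]
    obtain ⟨f, d, hd⟩ := f
    refine ⟨?_, ?_, fun o => o.elim 0 d, ?_⟩
    · intro v hv
      rcases v with _ | v
      · rfl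
      · exact absurd (Finset.mem_erase.2 ⟨by simp, Finset.mem_univ _⟩) hv
    · intro v _
      by_cases h : v.bind f = none
      · exact Or.inr (Finset.mem_singleton.2 h)
      · exact Or.inl (Finset.mem_erase.2 ⟨h, Finset.mem_univ _⟩)
    · intro v hv hfv
      rcases v with _ | v
      · exact absurd rfl (Finset.mem_erase.1 hv).1
      · change f v ∈ _ at hfv
        show (f v).elim 0 d < d v
        obtain ⟨u, hu⟩ := Option.ne_none_iff_exists'.1 (Finset.mem_erase.1 hfv).1
        rw [hu]
        exact hd v u hu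
  · intro f g hfg
    apply Subtype.ext
    funext v
    have h := congrArg (fun F : {F // F ∈ AA (univ.erase (none : Option (Fin n))) {none}} =>
      F.1 (some v)) hfg
    exact h

end Pool.Agent.Helper32.HU
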